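import Pool.Agent.Helper456.C4Blow

namespace Pool.Agent.Helper456.C4

open Finset

theorem exists_graph (n : ℕ) (hn : 2 ≤ n) :
    ∃ G : SimpleGraph (Fin n), ¬ (SimpleGraph.cycleGraph 4).IsIndContained G ∧
      ((max G.indepNum G.cliqueNum : ℕ) : ℝ) ≤ 20000 * (n : ℝ) ^ (2 / 5 : ℝ) * (Real.log n) ^ 2 := by
  set x : ℝ := (n : ℝ) ^ (2 / 5 : ℝ) with hx
  have hn1 : (1 : ℝ) ≤ n := by exact_mod_cast (by omega : 1 ≤ n)
  have hx1 : 1 ≤ x := Real.one_le_rpow hn1 (by norm_num)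
  have hx5 : x ^ 5 = (n : ℝ) ^ 2 := by
    rw [hx, ← Real.rpow_natCast, ← Real.rpow_mul (by positivity)]
    norm_num
  set K := ⌈x⌉₊ + 7 with hK
  obtain ⟨p, hp, hKp, hp2⟩ := Nat.exists_prime_lt_and_le_two_mul K (by omega)
  haveI := Fact.mk hp
  have hp8 : 8 ≤ p := by omega
  have hxp : x ≤ p := by
    have h1 : x ≤ (⌈x⌉₊ : ℝ) := Nat.le_ceil x
    have h2 : (⌈x⌉₊ : ℝ) ≤ p := by exact_mod_cast (by omega : ⌈x⌉₊ ≤ p)
    linarith
  have hpx : (p : ℝ) ≤ 18 * x := by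
    have h1 : (⌈x⌉₊ : ℝ) < x + 1 := Nat.ceil_lt_add_one (by linarith)
    have h2 : (p : ℝ) ≤ 2 * ((⌈x⌉₊ : ℝ) + 7) := by exact_mod_cast hp2
    linarith
  have hpn : n ^ 2 ≤ p ^ 5 := by
    have : (n : ℝ) ^ 2 ≤ (p : ℝ) ^ 5 := by
      rw [← hx5]; exact pow_le_pow_left₀ (by linarith) hxp 5
    exact_mod_cast this
  set L := Nat.log 2 p + 1 with hL
  have hsize : n ≤ p * Nat.sqrt p * (3 * p * L ^ 2) := by
    have hs : p < (Nat.sqrt p + 1) * (Nat.sqrt p + 1) := Nat.lt_succ_sqrt p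
    have hs1 : 1 ≤ Nat.sqrt p := by
      rw [Nat.le_sqrt]; omega
    have hs2 : p ≤ 4 * (Nat.sqrt p) ^ 2 := by nlinarith
    have hL1 : 1 ≤ L := by omega
    have hL4 : 1 ≤ L ^ 4 := Nat.one_le_pow _ _ hL1
    have h1 : p ^ 5 ≤ (p * Nat.sqrt p * (3 * p * L ^ 2)) ^ 2 := by
      calc p ^ 5 = p ^ 4 * p := by ring
        _ ≤ p ^ 4 * (4 * (Nat.sqrt p) ^ 2) := Nat.mul_le_mul_left _ hs2
        _ ≤ p ^ 4 * (9 * (Nat.sqrt p) ^ 2) := Nat.mul_le_mul_left _ (Nat.mul_le_mul_right _ (by norm_num))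
        _ ≤ p ^ 4 * (9 * (Nat.sqrt p) ^ 2) * L ^ 4 := Nat.le_mul_of_pos_right _ hL4
        _ = _ := by ring
    exact (Nat.pow_le_pow_iff_left (by norm_num)).1 (hpn.trans h1)
  obtain ⟨G, hG1, hG2⟩ := blow (p := p) hp8 n hsize
  refine ⟨G, hG1, ?_⟩
  have hG3 : ((max G.indepNum G.cliqueNum : ℕ) : ℝ) ≤ 9 * p * (L : ℝ) ^ 2 := by
    exact_mod_cast hG2
  refine hG3.trans ?_
  have hlog2 : (0.69 : ℝ) < Real.log 2 := by
    have := Real.log_two_gt_d9; linarith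
  have hlogn : Real.log 2 ≤ Real.log n := by
    apply Real.log_le_log (by norm_num)
    exact_mod_cast hn
  have hLle : (L : ℝ) ≤ 11 * Real.log n := by
    have h1 : (2 : ℝ) ^ (Nat.log 2 p) ≤ p := by
      exact_mod_cast Nat.pow_log_le_self 2 (by omega)
    have h2 : (Nat.log 2 p : ℝ) * Real.log 2 ≤ Real.log p := by
      rw [← Real.log_pow]
      exact Real.log_le_log (by positivity) h1
    have hxn : x ≤ n := by
      rw [hx]
      calc (n : ℝ) ^ (2 / 5 : ℝ) ≤ (n : ℝ) ^ (1 : ℝ) :=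
            Real.rpow_le_rpow_of_exponent_le hn1 (by norm_num)
        _ = n := Real.rpow_one _
    have h3 : Real.log p ≤ 5 * Real.log 2 + Real.log n := by
      have h5 : (5 : ℝ) * Real.log 2 = Real.log (2 ^ 5) := by rw [Real.log_pow]; norm_num
      rw [h5, ← Real.log_mul (by norm_num) (by positivity)]
      apply Real.log_le_log (by exact_mod_cast hp.pos)
      nlinarith
    have h4 : (Nat.log 2 p : ℝ) * Real.log 2 ≤ 6 * Real.log n := by linarith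
    have h6 : (L : ℝ) * Real.log 2 ≤ 7 * Real.log n := by
      rw [hL]; push_cast; nlinarith
    have hlog0 : 0 < Real.log n := by linarith
    by_contra hcon
    push Not at hcon
    have : 11 * Real.log n * Real.log 2 < L * Real.log 2 := by
      apply mul_lt_mul_of_pos_right hcon; linarith
    nlinarith
  have hL0 : (0 : ℝ) ≤ L := by positivity
  have hL2 : (L : ℝ) ^ 2 ≤ (11 * Real.log n) ^ 2 := pow_le_pow_left₀ hL0 hLle 2
  calc 9 * (p : ℝ) * (L : ℝ) ^ 2 ≤ 9 * (18 * x) * (11 * Real.log n) ^ 2 := by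
        apply mul_le_mul _ hL2 (by positivity) (by positivity)
        linarith
    _ = 19602 * (x * (Real.log n) ^ 2) := by ring
    _ ≤ 20000 * (x * (Real.log n) ^ 2) := by
        apply mul_le_mul_of_nonneg_right (by norm_num) (by positivity)
    _ = _ := by ring

theorem exponent_le (h : ℕ → ℝ) (hh : ∀ n : ℕ, 2 ≤ n → h n ≤ 20000 * (n : ℝ) ^ (2 / 5 : ℝ) * (Real.log n) ^ 2)
    (e : ℝ) (n0 : ℕ) (he : ∀ n : ℕ, n0 ≤ n → (n : ℝ) ^ e ≤ h n) : e ≤ 2 / 5 := by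
  by_contra hcon
  push Not at hcon
  set d := e - 2 / 5 with hd
  have hd0 : 0 < d := by linarith
  have hd20 : 0 < d / 2 := by linarith
  have hd40 : 0 < d / 4 := by linarith
  have ht : Filter.Tendsto (fun n : ℕ => (n : ℝ) ^ (d / 2)) Filter.atTop Filter.atTop :=
    (tendsto_rpow_atTop hd20).comp tendsto_natCast_atTop_atTop
  obtain ⟨n, hn1, hn2⟩ := ((ht.eventually_gt_atTop (20000 * (1 / (d / 4)) ^ 2)).and
    (Filter.eventually_ge_atTop (max n0 2))).exists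
  have hn3 : n0 ≤ n := (le_max_left _ _).trans hn2
  have hn4 : 2 ≤ n := (le_max_right _ _).trans hn2
  have hnp : (0 : ℝ) < n := by exact_mod_cast (by omega : 0 < n)
  have hn1' : (1 : ℝ) ≤ n := by exact_mod_cast (by omega : 1 ≤ n)
  have h1 := (he n hn3).trans (hh n hn4)
  have e1 : (n : ℝ) ^ e = (n : ℝ) ^ (2 / 5 : ℝ) * ((n : ℝ) ^ (d / 2) * (n : ℝ) ^ (d / 2)) := by
    rw [← Real.rpow_add hnp, ← Real.rpow_add hnp]; congr 1; rw [hd]; ring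
  have h2 : Real.log n ≤ (n : ℝ) ^ (d / 4) / (d / 4) := Real.log_le_rpow_div hnp.le hd40
  have h3 : (Real.log n) ^ 2 ≤ (n : ℝ) ^ (d / 2) * (1 / (d / 4)) ^ 2 := by
    have h0 : 0 ≤ Real.log n := Real.log_nonneg hn1'
    calc (Real.log n) ^ 2 ≤ ((n : ℝ) ^ (d / 4) / (d / 4)) ^ 2 := pow_le_pow_left₀ h0 h2 2
      _ = ((n : ℝ) ^ (d / 4) * (n : ℝ) ^ (d / 4)) * (1 / (d / 4)) ^ 2 := by ring
      _ = _ := by rw [← Real.rpow_add hnp]; congr 2; ring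
  have hx0 : 0 < (n : ℝ) ^ (2 / 5 : ℝ) := Real.rpow_pos_of_pos hnp _
  have hy0 : 0 < (n : ℝ) ^ (d / 2) := Real.rpow_pos_of_pos hnp _
  rw [e1] at h1
  have h4 : (n : ℝ) ^ (2 / 5 : ℝ) * ((n : ℝ) ^ (d / 2) * (n : ℝ) ^ (d / 2)) ≤
      (n : ℝ) ^ (2 / 5 : ℝ) * (20000 * ((n : ℝ) ^ (d / 2) * (1 / (d / 4)) ^ 2)) := by
    refine h1.trans ?_
    calc 20000 * (n : ℝ) ^ (2 / 5 : ℝ) * (Real.log n) ^ 2
        ≤ 20000 * (n : ℝ) ^ (2 / 5 : ℝ) * ((n : ℝ) ^ (d / 2) * (1 / (d / 4)) ^ 2) :=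
          mul_le_mul_of_nonneg_left h3 (by positivity)
      _ = _ := by ring
  have h5 := le_of_mul_le_mul_left h4 hx0
  have h6 : (n : ℝ) ^ (d / 2) * (n : ℝ) ^ (d / 2) ≤ (n : ℝ) ^ (d / 2) * (20000 * (1 / (d / 4)) ^ 2) := by
    refine h5.trans (le_of_eq ?_); ring
  have h7 := le_of_mul_le_mul_left h6 hy0
  linarith

end Pool.Agent.Helper456.C4
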