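import Pool.Agent.Helper456.C4Sample

namespace Pool.Agent.Helper456.C4

open Finset

variable {p : ℕ} [Fact p.Prime]

/-- clique blow-up along `f` -/
def bl {V : Type} (f : V → ZMod p × ZMod p) : SimpleGraph V where
  Adj x y := x ≠ y ∧ (f x = f y ∨ rel (f x) (f y))
  symm := ⟨fun x y h => ⟨h.1.symm, h.2.elim (fun e => Or.inl e.symm) (fun e => Or.inr (rel_comm.1 e))⟩⟩
  loopless := ⟨fun x h => h.1 rfl⟩

theorem bl_free {V : Type} (f : V → ZMod p × ZMod p) :
    ¬ (SimpleGraph.cycleGraph 4).IsIndContained (bl f) := by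
  rintro ⟨φ⟩
  have adj : ∀ i j, (SimpleGraph.cycleGraph 4).Adj i j ↔ (bl f).Adj (φ i) (φ j) :=
    fun i j => φ.map_rel_iff.symm
  have inj : Function.Injective φ := φ.injective
  have h01 : (bl f).Adj (φ 0) (φ 1) := (adj 0 1).1 (by decide)
  have h12 : (bl f).Adj (φ 1) (φ 2) := (adj 1 2).1 (by decide)
  have h23 : (bl f).Adj (φ 2) (φ 3) := (adj 2 3).1 (by decide)
  have h30 : (bl f).Adj (φ 3) (φ 0) := (adj 3 0).1 (by decide)
  have h02 : ¬ (bl f).Adj (φ 0) (φ 2) := fun h => absurd ((adj 0 2).2 h) (by decide)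
  have h13 : ¬ (bl f).Adj (φ 1) (φ 3) := fun h => absurd ((adj 1 3).2 h) (by decide)
  have n02 : φ 0 ≠ φ 2 := fun h => absurd (inj h) (by decide)
  have n13 : φ 1 ≠ φ 3 := fun h => absurd (inj h) (by decide)
  have a02 : f (φ 0) ≠ f (φ 2) := fun h => h02 ⟨n02, Or.inl h⟩
  have b02 : ¬ rel (f (φ 0)) (f (φ 2)) := fun h => h02 ⟨n02, Or.inr h⟩
  have a13 : f (φ 1) ≠ f (φ 3) := fun h => h13 ⟨n13, Or.inl h⟩
  have b13 : ¬ rel (f (φ 1)) (f (φ 3)) := fun h => h13 ⟨n13, Or.inr h⟩
  have r01 : rel (f (φ 0)) (f (φ 1)) := by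
    rcases h01.2 with h | h
    · exfalso
      rcases h12.2 with h' | h'
      · exact a02 (h.trans h')
      · rw [← h] at h'; exact b02 h'
    · exact h
  have r12 : rel (f (φ 1)) (f (φ 2)) := by
    rcases h12.2 with h | h
    · exfalso
      rcases h01.2 with h' | h'
      · exact a02 (h'.trans h)
      · rw [h] at h'; exact b02 h'
    · exact h
  have r23 : rel (f (φ 2)) (f (φ 3)) := by
    rcases h23.2 with h | h
    · exfalso
      rcases h12.2 with h' | h'
      · exact a13 (h'.trans h)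
      · rw [h] at h'; exact b13 h'
    · exact h
  have r30 : rel (f (φ 3)) (f (φ 0)) := by
    rcases h30.2 with h | h
    · exfalso
      rcases h23.2 with h' | h'
      · exact a02 (h'.trans h).symm
      · rw [h] at h'; exact b02 (rel_comm.1 h')
    · exact h
  exact a13 (rel_unique a02 r01 (rel_comm.1 r12) (rel_comm.1 r30) r23)

theorem bl_clique {V : Type} (f : V → ZMod p × ZMod p) (c : ℕ)
    (hf : ∀ v, ∀ K : Finset V, (∀ x ∈ K, f x = v) → K.card ≤ c) (K : Finset V)
    (hK : (bl f).IsClique (K : Set V)) : K.card ≤ 3 * c := by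
  classical
  have h3 : (K.image f).card ≤ 3 := by
    by_contra hcon
    push Not at hcon
    obtain ⟨a, ha, b, hb, c', hc, d, hd, hab, hac, had, hbc, hbd, hcd⟩ :=
      (Finset.three_lt_card (s := K.image f)).1 hcon
    have hr : ∀ u ∈ K.image f, ∀ v ∈ K.image f, u ≠ v → rel u v := by
      intro u hu v hv huv
      obtain ⟨x, hx, rfl⟩ := mem_image.1 hu
      obtain ⟨y, hy, rfl⟩ := mem_image.1 hv
      have hxy : x ≠ y := fun h => huv (by rw [h])
      rcases (hK hx hy hxy).2 with h | h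
      · exact absurd h huv
      · exact h
    exact hcd (rel_unique hab (hr a ha c' hc hac) (hr b hb c' hc hbc) (hr a ha d hd had)
      (hr b hb d hd hbd))
  have h4 : K.card ≤ c * (K.image f).card := by
    apply Finset.card_le_mul_card_image
    intro v _
    exact hf v _ (fun x hx => (mem_filter.1 hx).2)
  calc K.card ≤ c * (K.image f).card := h4
    _ ≤ c * 3 := Nat.mul_le_mul_left _ h3
    _ = 3 * c := by ring

theorem bl_indep {V : Type} (f : V → ZMod p × ZMod p) (t : ℕ) (W : Finset (ZMod p × ZMod p))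
    (hW : ∀ x, f x ∈ W)
    (hI : ∀ I ⊆ W, (∀ u ∈ I, ∀ v ∈ I, u ≠ v → ¬ rel u v) → I.card < t) (K : Finset V)
    (hK : (bl f).IsIndepSet (K : Set V)) : K.card < t := by
  classical
  have hinj : Set.InjOn f (K : Set V) := by
    intro x hx y hy h
    by_contra hxy
    exact hK hx hy hxy ⟨hxy, Or.inl h⟩
  rw [← card_image_of_injOn hinj]
  apply hI
  · intro v hv
    obtain ⟨x, _, rfl⟩ := mem_image.1 hv
    exact hW x
  · intro u hu v hv huv h
    obtain ⟨x, hx, rfl⟩ := mem_image.1 hu
    obtain ⟨y, hy, rfl⟩ := mem_image.1 hv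
    have hxy : x ≠ y := fun h => huv (by rw [h])
    exact hK hx hy hxy ⟨hxy, Or.inr h⟩

theorem blow (hp8 : 8 ≤ p) (n : ℕ) (hn : n ≤ p * Nat.sqrt p * (3 * p * (Nat.log 2 p + 1) ^ 2)) :
    ∃ G : SimpleGraph (Fin n),
      ¬ (SimpleGraph.cycleGraph 4).IsIndContained G ∧
      max G.indepNum G.cliqueNum ≤ 9 * p * (Nat.log 2 p + 1) ^ 2 := by
  classical
  obtain ⟨W, hWc, hWI⟩ := core (p := p) hp8
  set t := 3 * p * (Nat.log 2 p + 1) ^ 2 with ht
  set w := p * Nat.sqrt p with hw
  let g : W ≃ Fin w := W.equivFinOfCardEq hWc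
  let f : Fin n → ZMod p × ZMod p := fun i => (g.symm (finProdFinEquiv.symm (Fin.castLE hn i)).1).val
  refine ⟨bl f, bl_free f, ?_⟩
  apply max_le
  · obtain ⟨s, hs⟩ := (bl f).exists_isNIndepSet_indepNum
    have h1 := bl_indep f t W (fun x => (g.symm (finProdFinEquiv.symm (Fin.castLE hn x)).1).2) hWI s hs.isIndepSet
    rw [hs.card_eq] at h1
    have : 9 * p * (Nat.log 2 p + 1) ^ 2 = 3 * t := by rw [ht]; ring
    omega
  · obtain ⟨s, hs⟩ := (bl f).exists_isNClique_cliqueNum
    have h1 := bl_clique f t (by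
      intro v K hK
      have hinj : Set.InjOn (fun i : Fin n => (finProdFinEquiv.symm (Fin.castLE hn i)).2)
          (K : Set (Fin n)) := by
        intro x hx y hy h
        have e1 : (finProdFinEquiv.symm (Fin.castLE hn x)).1 =
            (finProdFinEquiv.symm (Fin.castLE hn y)).1 := by
          have h1 : f x = f y := (hK x hx).trans (hK y hy).symm
          exact g.symm.injective (Subtype.ext h1)
        exact Fin.castLE_injective hn (finProdFinEquiv.symm.injective (Prod.ext e1 h))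
      calc K.card = (K.image (fun i : Fin n => (finProdFinEquiv.symm (Fin.castLE hn i)).2)).card :=
            (card_image_of_injOn hinj).symm
        _ ≤ Fintype.card (Fin t) := card_le_univ _
        _ = t := Fintype.card_fin t) s hs.isClique
    rw [hs.card_eq] at h1
    have : 9 * p * (Nat.log 2 p + 1) ^ 2 = 3 * t := by rw [ht]; ring
    omega

end Pool.Agent.Helper456.C4
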