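import Mathlib

/-!
# A sparse C4-free graph with small independence number

Affine polarity graph on `ZMod p × ZMod p`: `(a,b) ~ (c,d)` iff `b + d = a * c`.
-/

namespace Pool.Agent.Helper456.C4

open Finset

variable {p : ℕ} [Fact p.Prime]

/-- The relation `b + d = a c`. -/
def rel (u v : ZMod p × ZMod p) : Prop := u.2 + v.2 = u.1 * v.1

instance : DecidableRel (rel (p := p)) := fun u v => by unfold rel; infer_instance

theorem rel_comm {u v : ZMod p × ZMod p} : rel u v ↔ rel v u := by
  unfold rel; rw [add_comm, mul_comm]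

theorem rel_unique {u u' v w : ZMod p × ZMod p} (hne : u ≠ u') (h1 : rel u v) (h2 : rel u' v)
    (h3 : rel u w) (h4 : rel u' w) : v = w := by
  unfold rel at *
  have e : (u.1 - u'.1) * (v.1 - w.1) = 0 := by linear_combination h2 - h1 + h3 - h4
  have hv : v.1 = w.1 := by
    rcases mul_eq_zero.1 e with h | h
    · exfalso
      have h5 : u.1 = u'.1 := sub_eq_zero.1 h
      apply hne
      refine Prod.ext h5 ?_
      rw [← h5] at h2
      linear_combination h1 - h2
    · exact sub_eq_zero.1 h
  refine Prod.ext hv ?_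
  rw [hv] at h1
  linear_combination h1 - h3

theorem card_rel (u : ZMod p × ZMod p) : (univ.filter (fun v => rel u v)).card = p := by
  have : (univ.filter (fun v => rel u v)) =
      (univ : Finset (ZMod p)).image (fun c => ((c, u.1 * c - u.2) : ZMod p × ZMod p)) := by
    ext ⟨c, d⟩
    simp only [mem_filter, mem_univ, true_and, mem_image, Prod.mk.injEq, rel]
    constructor
    · intro h; exact ⟨c, rfl, by linear_combination -h⟩
    · rintro ⟨c', rfl, h⟩; linear_combination -h
  rw [this, card_image_of_injective]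
  · simp [ZMod.card]
  · intro a b h; exact (Prod.mk.inj h).1

theorem card_rel2 {u u' : ZMod p × ZMod p} (hne : u ≠ u') :
    (univ.filter (fun v => rel u v ∧ rel u' v)).card ≤ 1 := by
  rw [card_le_one]
  intro a ha b hb
  simp only [mem_filter, mem_univ, true_and] at ha hb
  exact rel_unique hne ha.1 ha.2 hb.1 hb.2

/-- degree of `v` into `B` -/
def dg (B : Finset (ZMod p × ZMod p)) (v : ZMod p × ZMod p) : ℕ := (B.filter (fun b => rel b v)).card

theorem sum_dg (B : Finset (ZMod p × ZMod p)) : ∑ v, dg B v = B.card * p := by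
  have : ∀ v, dg B v = ∑ b ∈ B, if rel b v then 1 else 0 := by
    intro v; unfold dg; rw [card_filter]
  simp_rw [this]
  rw [sum_comm]
  have h2 : ∀ b ∈ B, (∑ v : ZMod p × ZMod p, if rel b v then 1 else 0) = p := by
    intro b _; rw [← card_filter]; exact card_rel b
  rw [sum_congr rfl h2, sum_const, smul_eq_mul]

theorem sum_dg_sq (B : Finset (ZMod p × ZMod p)) :
    ∑ v, (dg B v) ^ 2 ≤ B.card * p + B.card ^ 2 := by
  have : ∀ v, (dg B v) ^ 2 = ∑ b ∈ B, ∑ b' ∈ B, if rel b v ∧ rel b' v then 1 else 0 := by
    intro v; unfold dg; rw [card_filter, sq, sum_mul_sum]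
    refine sum_congr rfl fun b _ => sum_congr rfl fun b' _ => ?_
    by_cases h : rel b v <;> by_cases h' : rel b' v <;> simp [h, h']
  simp_rw [this]
  rw [sum_comm]
  have h1 : ∀ b ∈ B, (∑ v : ZMod p × ZMod p, ∑ b' ∈ B, if rel b v ∧ rel b' v then 1 else 0)
      ≤ p + B.card := by
    intro b hb
    rw [sum_comm]
    have h2 : ∀ b' ∈ B, (∑ v : ZMod p × ZMod p, if rel b v ∧ rel b' v then 1 else 0) ≤
        (if b' = b then p else 0) + 1 := by
      intro b' _
      rw [← card_filter]
      by_cases e : b' = b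
      · subst e; simp only [and_self, if_true]; rw [card_rel]; omega
      · simp only [e, if_false, zero_add]; exact card_rel2 (Ne.symm e)
    refine (sum_le_sum h2).trans ?_
    rw [sum_add_distrib]
    simp [hb]
  refine (sum_le_sum h1).trans ?_
  rw [sum_const, smul_eq_mul]
  nlinarith

/-- vertices with few neighbours in `B` -/
def low (B : Finset (ZMod p × ZMod p)) : Finset (ZMod p × ZMod p) :=
  univ.filter (fun v => 2 * p * dg B v ≤ B.card)

theorem low_card (B : Finset (ZMod p × ZMod p)) : (low B).card * B.card ≤ 4 * p ^ 3 := by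
  rcases Nat.eq_zero_or_pos B.card with h0 | hpos
  · rw [h0]; simp
  have hN : (Fintype.card (ZMod p × ZMod p)) = p ^ 2 := by
    rw [Fintype.card_prod, ZMod.card]; ring
  have key : ∑ v, ((p : ℝ) * dg B v - B.card) ^ 2 ≤ p ^ 3 * B.card := by
    have e1 : ∑ v, ((p : ℝ) * dg B v - B.card) ^ 2 =
        p ^ 2 * (∑ v, (dg B v : ℝ) ^ 2) - 2 * p * B.card * (∑ v, (dg B v : ℝ)) +
          p ^ 2 * (B.card : ℝ) ^ 2 := by
      have : ∀ v, ((p : ℝ) * dg B v - B.card) ^ 2 =
          p ^ 2 * (dg B v : ℝ) ^ 2 - 2 * p * B.card * (dg B v : ℝ) + (B.card : ℝ) ^ 2 := by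
        intro v; ring
      simp_rw [this]
      rw [sum_add_distrib, sum_sub_distrib, ← mul_sum, ← mul_sum, sum_const, card_univ, hN]
      simp
    rw [e1]
    have h1 : (∑ v, (dg B v : ℝ)) = B.card * p := by exact_mod_cast sum_dg B
    have h2 : (∑ v, (dg B v : ℝ) ^ 2) ≤ B.card * p + (B.card : ℝ) ^ 2 := by
      exact_mod_cast sum_dg_sq B
    rw [h1]
    have hp2 : (0 : ℝ) ≤ (p : ℝ) ^ 2 := by positivity
    nlinarith [mul_le_mul_of_nonneg_left h2 hp2]
  have h3 : ((low B).card : ℝ) * ((B.card : ℝ) ^ 2 / 4) ≤ ∑ v, ((p : ℝ) * dg B v - B.card) ^ 2 := by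
    calc ((low B).card : ℝ) * ((B.card : ℝ) ^ 2 / 4) = ∑ v ∈ low B, ((B.card : ℝ) ^ 2 / 4) := by
          rw [sum_const, nsmul_eq_mul]
      _ ≤ ∑ v ∈ low B, ((p : ℝ) * dg B v - B.card) ^ 2 := by
          refine sum_le_sum fun v hv => ?_
          have hv' : (2 * p * dg B v : ℝ) ≤ B.card := by
            have := (mem_filter.1 hv).2
            exact_mod_cast this
          have hb : (0 : ℝ) ≤ B.card := by positivity
          nlinarith
      _ ≤ _ := sum_le_sum_of_subset_of_nonneg (subset_univ _) (fun _ _ _ => sq_nonneg _)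
  have h4 : ((low B).card : ℝ) * B.card ≤ 4 * p ^ 3 := by
    have hb : (0 : ℝ) < B.card := by exact_mod_cast hpos
    have := h3.trans key
    have h5 : ((low B).card : ℝ) * B.card * (B.card : ℝ) ≤ 4 * p ^ 3 * B.card := by nlinarith
    exact le_of_mul_le_mul_right h5 hb
  exact_mod_cast h4

/-- non-neighbours of `v` in `B` other than `v` -/
def nxt (B : Finset (ZMod p × ZMod p)) (v : ZMod p × ZMod p) : Finset (ZMod p × ZMod p) :=
  B.filter (fun b => b ≠ v ∧ ¬ rel b v)

/-- upper bound for the number of ordered independent tuples -/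
def F : ℕ → Finset (ZMod p × ZMod p) → ℕ
  | 0, _ => 1
  | t + 1, B => ∑ v ∈ B, F t (nxt B v)

theorem nxt_card (B : Finset (ZMod p × ZMod p)) (v : ZMod p × ZMod p) :
    (nxt B v).card + dg B v ≤ B.card := by
  unfold nxt dg
  have h := card_filter_add_card_filter_not (s := B) (p := fun b => rel b v)
  have h2 : (B.filter (fun b => b ≠ v ∧ ¬ rel b v)).card ≤ (B.filter (fun b => ¬ rel b v)).card := by
    apply card_le_card
    intro x hx
    simp only [mem_filter] at hx ⊢
    exact ⟨hx.1, hx.2.2⟩
  omega

theorem F_bound (s : ℕ) (M : ℝ) (hM0 : 2 ≤ M) (hM : M ^ 2 = 4 * (p : ℝ) ^ 3)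
    (hs : (p : ℝ) ^ 2 * (1 - 1 / (2 * (p : ℝ))) ^ s ≤ M) :
    ∀ (t : ℕ) (B : Finset (ZMod p × ZMod p)),
      (F t B : ℝ) ≤ (2 * M) ^ t * (max (B.card : ℝ) 1) ^ s := by
  intro t
  have hp1 : 1 ≤ (p : ℝ) := by exact_mod_cast (Fact.out : p.Prime).one_lt.le
  induction t with
  | zero =>
    intro B
    simp only [F, Nat.cast_one, pow_zero, one_mul]
    exact one_le_pow₀ (le_max_right _ _)
  | succ t ih =>
    intro B
    simp only [F]
    push_cast
    set b : ℝ := (B.card : ℝ) with hb
    have hb0 : 0 ≤ b := by positivity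
    have hM' : 0 ≤ (2 * M) ^ t := by positivity
    have mono : ∀ v, (max ((nxt B v).card : ℝ) 1) ^ s ≤ (max b 1) ^ s := by
      intro v
      apply pow_le_pow_left₀ (le_trans zero_le_one (le_max_right _ _))
      apply max_le_max _ le_rfl
      have := nxt_card B v
      have h2 : (nxt B v).card ≤ B.card := by omega
      rw [hb]; exact_mod_cast h2
    rcases le_or_gt b M with hbM | hbM
    · calc ∑ v ∈ B, (F t (nxt B v) : ℝ) ≤ ∑ v ∈ B, (2 * M) ^ t * (max b 1) ^ s := by
            refine sum_le_sum fun v _ => (ih _).trans ?_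
            exact mul_le_mul_of_nonneg_left (mono v) hM'
        _ = b * ((2 * M) ^ t * (max b 1) ^ s) := by rw [sum_const, nsmul_eq_mul]
        _ ≤ (2 * M) * ((2 * M) ^ t * (max b 1) ^ s) := by
            apply mul_le_mul_of_nonneg_right _ (by positivity)
            linarith
        _ = _ := by ring
    · have hb1 : max b 1 = b := max_eq_left (by linarith)
      rw [hb1] at mono ⊢
      rw [← sum_filter_add_sum_filter_not B (fun v => v ∈ low B)]
      have hlow : ((B.filter (fun v => v ∈ low B)).card : ℝ) ≤ M := by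
        have h1 : (B.filter (fun v => v ∈ low B)).card ≤ B.card := card_filter_le _ _
        have h2 : (B.filter (fun v => v ∈ low B)).card ≤ (low B).card :=
          card_le_card (fun x hx => (mem_filter.1 hx).2)
        have h3 : (B.filter (fun v => v ∈ low B)).card ^ 2 ≤ 4 * p ^ 3 := by
          calc _ = (B.filter (fun v => v ∈ low B)).card * (B.filter (fun v => v ∈ low B)).card := sq _
            _ ≤ (low B).card * B.card := Nat.mul_le_mul h2 h1
            _ ≤ _ := low_card B
        have h4 : ((B.filter (fun v => v ∈ low B)).card : ℝ) ^ 2 ≤ M ^ 2 := by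
          rw [hM]; exact_mod_cast h3
        exact le_of_sq_le_sq h4 (by linarith)
      have part1 : ∑ v ∈ B.filter (fun v => v ∈ low B), (F t (nxt B v) : ℝ) ≤
          M * ((2 * M) ^ t * b ^ s) := by
        calc _ ≤ ∑ v ∈ B.filter (fun v => v ∈ low B), (2 * M) ^ t * b ^ s := by
              refine sum_le_sum fun v _ => (ih _).trans ?_
              exact mul_le_mul_of_nonneg_left (mono v) hM'
          _ = ((B.filter (fun v => v ∈ low B)).card : ℝ) * ((2 * M) ^ t * b ^ s) := by
              rw [sum_const, nsmul_eq_mul]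
          _ ≤ _ := mul_le_mul_of_nonneg_right hlow (by positivity)
      have part2 : ∑ v ∈ B.filter (fun v => ¬ v ∈ low B), (F t (nxt B v) : ℝ) ≤
          M * ((2 * M) ^ t * b ^ s) := by
        have each : ∀ v ∈ B.filter (fun v => ¬ v ∈ low B), (F t (nxt B v) : ℝ) ≤
            (2 * M) ^ t * (b ^ s * (1 - 1 / (2 * (p : ℝ))) ^ s) := by
          intro v hv
          refine (ih _).trans ?_
          apply mul_le_mul_of_nonneg_left _ hM'
          rw [← mul_pow]
          apply pow_le_pow_left₀ (le_trans zero_le_one (le_max_right _ _))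
          have hnl : ¬ (2 * p * dg B v ≤ B.card) := by
            intro h
            exact (mem_filter.1 hv).2 (mem_filter.2 ⟨mem_univ _, h⟩)
          have hd : b < 2 * p * dg B v := by
            rw [hb]; push Not at hnl; exact_mod_cast hnl
          have hc : ((nxt B v).card : ℝ) + dg B v ≤ b := by
            rw [hb]; exact_mod_cast nxt_card B v
          have hpp : (0 : ℝ) < 2 * p := by linarith
          have hdd : b / (2 * p) ≤ dg B v := by
            rw [div_le_iff₀ hpp]; linarith
          have e : b * (1 - 1 / (2 * (p : ℝ))) = b - b / (2 * p) := by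
            field_simp
          rw [e]
          apply max_le
          · linarith
          · have : b / (2 * p) ≤ b / 2 := by
              apply div_le_div_of_nonneg_left hb0 (by norm_num) (by linarith)
            linarith
        have hbN : b ≤ (p : ℝ) ^ 2 := by
          rw [hb]
          have : B.card ≤ p ^ 2 := by
            have := card_le_univ B
            rw [Fintype.card_prod, ZMod.card] at this
            rw [sq]; exact this
          exact_mod_cast this
        have hq0 : 0 ≤ (1 - 1 / (2 * (p : ℝ))) := by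
          have : 1 / (2 * (p : ℝ)) ≤ 1 := by
            rw [div_le_one (by linarith)]; linarith
          linarith
        calc _ ≤ ∑ v ∈ B.filter (fun v => ¬ v ∈ low B),
              (2 * M) ^ t * (b ^ s * (1 - 1 / (2 * (p : ℝ))) ^ s) := sum_le_sum each
          _ = ((B.filter (fun v => ¬ v ∈ low B)).card : ℝ) *
              ((2 * M) ^ t * (b ^ s * (1 - 1 / (2 * (p : ℝ))) ^ s)) := by
              rw [sum_const, nsmul_eq_mul]
          _ ≤ (p : ℝ) ^ 2 * ((2 * M) ^ t * (b ^ s * (1 - 1 / (2 * (p : ℝ))) ^ s)) := by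
              apply mul_le_mul_of_nonneg_right _ (by positivity)
              refine le_trans ?_ hbN
              rw [hb]
              exact_mod_cast card_filter_le _ _
          _ = ((p : ℝ) ^ 2 * (1 - 1 / (2 * (p : ℝ))) ^ s) * ((2 * M) ^ t * b ^ s) := by ring
          _ ≤ M * ((2 * M) ^ t * b ^ s) := mul_le_mul_of_nonneg_right hs (by positivity)
      calc _ ≤ M * ((2 * M) ^ t * b ^ s) + M * ((2 * M) ^ t * b ^ s) := add_le_add part1 part2
        _ = _ := by ring

/-- independent `t`-subsets of `B` -/
def ind (t : ℕ) (B : Finset (ZMod p × ZMod p)) : Finset (Finset (ZMod p × ZMod p)) :=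
  (B.powersetCard t).filter (fun I => ∀ u ∈ I, ∀ v ∈ I, u ≠ v → ¬ rel u v)

theorem ind_F : ∀ (t : ℕ) (B : Finset (ZMod p × ZMod p)), (ind t B).card * t.factorial ≤ F t B := by
  intro t
  induction t with
  | zero =>
    intro B
    simp only [Nat.factorial_zero, mul_one, F]
    refine (card_filter_le _ _).trans ?_
    simp
  | succ t ih =>
    intro B
    have h1 : (ind (t + 1) B).card * (t + 1) = ∑ v ∈ B, ((ind (t + 1) B).filter (fun I => v ∈ I)).card := by
      have : ∀ v, ((ind (t + 1) B).filter (fun I => v ∈ I)).card = ∑ I ∈ ind (t + 1) B, if v ∈ I then 1 else 0 := by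
        intro v; rw [card_filter]
      simp_rw [this]
      rw [sum_comm, ← smul_eq_mul, ← sum_const]
      refine sum_congr rfl fun I hI => ?_
      have hI' := mem_powersetCard.1 (mem_filter.1 hI).1
      rw [← card_filter, filter_mem_eq_inter, inter_eq_right.2 hI'.1, hI'.2]
    have h2 : ∀ v ∈ B, ((ind (t + 1) B).filter (fun I => v ∈ I)).card ≤ (ind t (nxt B v)).card := by
      intro v hv
      apply card_le_card_of_injOn (fun I => I.erase v)
      · intro I hI
        have hI1 := mem_filter.1 hI
        have hI2 := mem_filter.1 hI1.1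
        have hI3 := mem_powersetCard.1 hI2.1
        refine mem_filter.2 ⟨mem_powersetCard.2 ⟨?_, ?_⟩, ?_⟩
        · intro x hx
          have hx' := mem_erase.1 hx
          refine mem_filter.2 ⟨hI3.1 hx'.2, hx'.1, hI2.2 x hx'.2 v hI1.2 hx'.1⟩
        · rw [card_erase_of_mem hI1.2, hI3.2]; rfl
        · intro u hu w hw
          exact hI2.2 u (mem_of_mem_erase hu) w (mem_of_mem_erase hw)
      · intro I hI J hJ h
        have hI1 := (mem_filter.1 hI).2
        have hJ1 := (mem_filter.1 hJ).2
        have := congrArg (insert v) h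
        simpa [insert_erase hI1, insert_erase hJ1] using this
    calc (ind (t + 1) B).card * (t + 1).factorial
        = ((ind (t + 1) B).card * (t + 1)) * t.factorial := by rw [Nat.factorial_succ]; ring
      _ = (∑ v ∈ B, ((ind (t + 1) B).filter (fun I => v ∈ I)).card) * t.factorial := by rw [h1]
      _ ≤ (∑ v ∈ B, (ind t (nxt B v)).card) * t.factorial :=
          Nat.mul_le_mul_right _ (sum_le_sum h2)
      _ = ∑ v ∈ B, (ind t (nxt B v)).card * t.factorial := by rw [sum_mul]
      _ ≤ ∑ v ∈ B, F t (nxt B v) := sum_le_sum fun v _ => ih _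
      _ = F (t + 1) B := rfl

end Pool.Agent.Helper456.C4
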