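import Pool.Agent.Helper456.C4Core

namespace Pool.Agent.Helper456.C4

open Finset

variable {p : ℕ} [Fact p.Prime]

theorem descFactorial_ratio (w N : ℕ) (h : w ≤ N) : ∀ t : ℕ,
    w.descFactorial t * N ^ t ≤ N.descFactorial t * w ^ t := by
  intro t
  induction t with
  | zero => simp
  | succ t ih =>
    rw [Nat.descFactorial_succ, Nat.descFactorial_succ, pow_succ, pow_succ]
    have h1 : (w - t) * N ≤ (N - t) * w := by
      rcases le_total w t with h2 | h2
      · rw [Nat.sub_eq_zero_of_le h2]; simp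
      · obtain ⟨a, rfl⟩ := Nat.exists_eq_add_of_le h2
        obtain ⟨b, rfl⟩ := Nat.exists_eq_add_of_le h
        have e1 : t + a - t = a := by omega
        have e2 : t + a + b - t = a + b := by omega
        rw [e1, e2]
        nlinarith [Nat.zero_le (t * b)]
    calc (w - t) * w.descFactorial t * (N ^ t * N) = ((w - t) * N) * (w.descFactorial t * N ^ t) := by ring
      _ ≤ ((N - t) * w) * (N.descFactorial t * w ^ t) := Nat.mul_le_mul h1 ih
      _ = _ := by ring

theorem choose_ratio (w N : ℕ) (h : w ≤ N) (t : ℕ) :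
    w.choose t * N ^ t ≤ N.choose t * w ^ t := by
  have h1 := descFactorial_ratio w N h t
  rw [Nat.descFactorial_eq_factorial_mul_choose, Nat.descFactorial_eq_factorial_mul_choose] at h1
  have h2 : 0 < t.factorial := Nat.factorial_pos t
  refine Nat.le_of_mul_le_mul_left (c := t.factorial) ?_ h2
  calc t.factorial * (w.choose t * N ^ t) = t.factorial * w.choose t * N ^ t := by ring
    _ ≤ _ := h1
    _ = _ := by ring

/-- averaging over `w`-subsets -/
theorem avg {α : Type*} [Fintype α] [DecidableEq α] (t w : ℕ) (htw : t ≤ w)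
    (hw : w ≤ Fintype.card α) (𝓘 : Finset (Finset α)) (hI : ∀ I ∈ 𝓘, I.card = t)
    (hsmall : 𝓘.card * w ^ t < (Fintype.card α) ^ t) :
    ∃ W : Finset α, W.card = w ∧ ∀ I ∈ 𝓘, ¬ I ⊆ W := by
  by_contra hcon
  push Not at hcon
  set N := Fintype.card α with hN
  have hcov : (univ : Finset α).powersetCard w ⊆
      𝓘.biUnion (fun I => ((univ : Finset α).powersetCard w).filter (fun W => I ⊆ W)) := by
    intro W hW
    have hWc := (mem_powersetCard.1 hW).2
    obtain ⟨I, hI1, hI2⟩ := hcon W hWc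
    exact mem_biUnion.2 ⟨I, hI1, mem_filter.2 ⟨hW, hI2⟩⟩
  have h1 : N.choose w ≤ 𝓘.card * (N - t).choose (w - t) := by
    have hc := card_le_card hcov
    rw [card_powersetCard, card_univ] at hc
    refine hc.trans ?_
    refine card_biUnion_le_card_mul _ _ _ ?_
    intro I hI1
    have hIc := hI I hI1
    have : (N - t).choose (w - t) = ((univ \ I).powersetCard (w - t)).card := by
      rw [card_powersetCard, card_sdiff_of_subset (subset_univ I), card_univ, hIc]
    rw [this]
    apply card_le_card_of_injOn (fun W => W \ I)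
    · intro W hW
      have hW1 := mem_filter.1 hW
      have hW2 := mem_powersetCard.1 hW1.1
      refine mem_powersetCard.2 ⟨sdiff_subset_sdiff (subset_univ _) (Subset.refl _), ?_⟩
      rw [card_sdiff_of_subset hW1.2, hW2.2, hIc]
    · intro W hW W' hW' h
      have hW1 := (mem_filter.1 hW).2
      have hW2 := (mem_filter.1 hW').2
      have h' : W \ I = W' \ I := h
      rw [← sdiff_union_of_subset hW1, ← sdiff_union_of_subset hW2, h']
  have h2 : N.choose w * w.choose t = N.choose t * (N - t).choose (w - t) :=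
    Nat.choose_mul htw
  have h3 : N.choose t ≤ 𝓘.card * w.choose t := by
    have hpos : 0 < N.choose w := Nat.choose_pos hw
    refine Nat.le_of_mul_le_mul_left (c := N.choose w) ?_ hpos
    calc N.choose w * N.choose t ≤ 𝓘.card * (N - t).choose (w - t) * N.choose t :=
          Nat.mul_le_mul_right _ h1
      _ = 𝓘.card * (N.choose t * (N - t).choose (w - t)) := by ring
      _ = 𝓘.card * (N.choose w * w.choose t) := by rw [h2]
      _ = _ := by ring
  have h4 : N ^ t ≤ 𝓘.card * w ^ t := by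
    have hpos : 0 < N.choose t := Nat.choose_pos (htw.trans hw)
    refine Nat.le_of_mul_le_mul_left (c := N.choose t) ?_ hpos
    calc N.choose t * N ^ t ≤ 𝓘.card * w.choose t * N ^ t := Nat.mul_le_mul_right _ h3
      _ = 𝓘.card * (w.choose t * N ^ t) := by ring
      _ ≤ 𝓘.card * (N.choose t * w ^ t) := Nat.mul_le_mul_left _ (choose_ratio w N hw t)
      _ = _ := by ring
  omega

theorem hs_aux (p L : ℕ) (hp : 1 ≤ p) (hL : p < 2 ^ L) :
    (p : ℝ) ^ 2 * (1 - 1 / (2 * (p : ℝ))) ^ (2 * p * L) ≤ p := by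
  have hp0 : (0 : ℝ) < p := by exact_mod_cast hp
  have h1 : (1 - 1 / (2 * (p : ℝ))) ^ (2 * p) ≤ 1 / 2 := by
    have h := Real.one_sub_div_pow_le_exp_neg (n := 2 * p) (t := 1) (by
      have : 1 ≤ 2 * p := by omega
      exact_mod_cast this)
    push_cast at h
    refine h.trans ?_
    have := Real.exp_neg_one_lt_d9
    linarith
  have h0 : 0 ≤ (1 - 1 / (2 * (p : ℝ))) := by
    have : 1 / (2 * (p : ℝ)) ≤ 1 := by
      rw [div_le_one (by linarith)]
      have : (1 : ℝ) ≤ p := by exact_mod_cast hp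
      linarith
    linarith
  have h2 : (1 - 1 / (2 * (p : ℝ))) ^ (2 * p * L) ≤ (1 / 2) ^ L := by
    rw [pow_mul]; exact pow_le_pow_left₀ (pow_nonneg h0 _) h1 L
  have h3 : (1 / 2 : ℝ) ^ L ≤ 1 / p := by
    rw [one_div_pow]
    apply one_div_le_one_div_of_le hp0
    exact_mod_cast hL.le
  calc (p : ℝ) ^ 2 * (1 - 1 / (2 * (p : ℝ))) ^ (2 * p * L) ≤ p ^ 2 * (1 / p) :=
        mul_le_mul_of_nonneg_left (h2.trans h3) (by positivity)
    _ = p := by field_simp

theorem fact_lower (t : ℕ) : (t : ℝ) ^ t ≤ 3 ^ t * t.factorial := by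
  have h := Real.pow_div_factorial_le_exp (t : ℝ) (by positivity) t
  have h1 : Real.exp (t : ℝ) ≤ 3 ^ t := by
    rw [show (t : ℝ) = (t : ℝ) * 1 by ring, Real.exp_nat_mul]
    apply pow_le_pow_left₀ (Real.exp_pos _).le
    have := Real.exp_one_lt_d9
    linarith
  have hf : (0 : ℝ) < t.factorial := by exact_mod_cast Nat.factorial_pos t
  rw [div_le_iff₀ hf] at h
  exact h.trans (mul_le_mul_of_nonneg_right h1 hf.le)

theorem core (hp8 : 8 ≤ p) :
    ∃ W : Finset (ZMod p × ZMod p), W.card = p * Nat.sqrt p ∧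
      ∀ I ⊆ W, (∀ u ∈ I, ∀ v ∈ I, u ≠ v → ¬ rel u v) →
        I.card < 3 * p * (Nat.log 2 p + 1) ^ 2 := by
  set L := Nat.log 2 p + 1 with hLdef
  set w := p * Nat.sqrt p with hw
  set t := 3 * p * L ^ 2 with ht
  have hL4 : 4 ≤ L := by
    have : 3 ≤ Nat.log 2 p := by
      have := Nat.log_mono_right (b := 2) hp8
      have h8 : Nat.log 2 8 = 3 := by decide +kernel
      omega
    omega
  have hpL : p < 2 ^ L := Nat.lt_pow_succ_log_self (by norm_num) p
  have hcard : Fintype.card (ZMod p × ZMod p) = p ^ 2 := by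
    rw [Fintype.card_prod, ZMod.card]; ring
  have hsq : Nat.sqrt p * Nat.sqrt p ≤ p := Nat.sqrt_le p
  have hsqp : Nat.sqrt p ≤ p := Nat.sqrt_le_self p
  have hwN : w ≤ p ^ 2 := by rw [hw, sq]; exact Nat.mul_le_mul_left _ hsqp
  rcases lt_or_ge w t with hlt | hge
  · have : w ≤ (univ : Finset (ZMod p × ZMod p)).card := by rw [card_univ, hcard]; exact hwN
    obtain ⟨W, -, hWc⟩ := exists_subset_card_eq this
    refine ⟨W, hWc, fun I hI _ => ?_⟩
    exact lt_of_le_of_lt (card_le_card hI) (by rw [hWc]; exact hlt)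
  · have hp0 : (0 : ℝ) < p := by
      have : 0 < p := by omega
      exact_mod_cast this
    have hp8' : (8 : ℝ) ≤ p := by exact_mod_cast hp8
    set M : ℝ := Real.sqrt (4 * (p : ℝ) ^ 3) with hMdef
    have hM : M ^ 2 = 4 * (p : ℝ) ^ 3 := Real.sq_sqrt (by positivity)
    have hMp : 2 * (p : ℝ) ≤ M := by
      apply Real.le_sqrt_of_sq_le
      have : (0 : ℝ) ≤ p ^ 2 := by positivity
      nlinarith
    have hM2 : 2 ≤ M := by linarith
    have hFb := F_bound (p := p) (2 * p * L) M hM2 hM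
      ((hs_aux p L (by omega) hpL).trans (by linarith)) t univ
    have hind := ind_F (p := p) t univ
    have hub : (max ((univ : Finset (ZMod p × ZMod p)).card : ℝ) 1) = (p : ℝ) ^ 2 := by
      rw [card_univ, hcard]; push_cast
      apply max_eq_left
      nlinarith
    rw [hub] at hFb
    have hcount : ((ind t (univ : Finset (ZMod p × ZMod p))).card : ℝ) * t.factorial ≤
        (2 * M) ^ t * ((p : ℝ) ^ 2) ^ (2 * p * L) := by
      refine le_trans ?_ hFb
      exact_mod_cast hind
    have hsmall : (ind t (univ : Finset (ZMod p × ZMod p))).card * w ^ t <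
        (Fintype.card (ZMod p × ZMod p)) ^ t := by
      by_contra hcon
      push Not at hcon
      rw [hcard] at hcon
      have hcon' : ((p : ℝ) ^ 2) ^ t ≤ ((ind t (univ : Finset (ZMod p × ZMod p))).card : ℝ) * (w : ℝ) ^ t := by
        exact_mod_cast hcon
      have hwM : 2 * (w : ℝ) ≤ M := by
        apply Real.le_sqrt_of_sq_le
        rw [hw]; push_cast
        have h1 : ((Nat.sqrt p : ℝ)) * (Nat.sqrt p : ℝ) ≤ p := by exact_mod_cast hsq
        have h2 : (0 : ℝ) ≤ p ^ 2 := by positivity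
        nlinarith [mul_le_mul_of_nonneg_left h1 h2]
      have h2Mw : 2 * M * w ≤ 4 * (p : ℝ) ^ 3 := by
        rw [← hM]
        nlinarith
      have hA : ((p : ℝ) ^ 2) ^ t * t.factorial ≤ (4 * (p : ℝ) ^ 3) ^ t * ((p : ℝ) ^ 2) ^ (2 * p * L) := by
        have hf0 : (0 : ℝ) ≤ t.factorial := by positivity
        have hw0 : (0 : ℝ) ≤ (w : ℝ) ^ t := by positivity
        calc ((p : ℝ) ^ 2) ^ t * t.factorial
            ≤ (((ind t (univ : Finset (ZMod p × ZMod p))).card : ℝ) * (w : ℝ) ^ t) * t.factorial :=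
              mul_le_mul_of_nonneg_right hcon' hf0
          _ = (((ind t (univ : Finset (ZMod p × ZMod p))).card : ℝ) * t.factorial) * (w : ℝ) ^ t := by ring
          _ ≤ ((2 * M) ^ t * ((p : ℝ) ^ 2) ^ (2 * p * L)) * (w : ℝ) ^ t :=
              mul_le_mul_of_nonneg_right hcount hw0
          _ = (2 * M * w) ^ t * ((p : ℝ) ^ 2) ^ (2 * p * L) := by rw [mul_pow (2 * M)]; ring
          _ ≤ _ := by
              apply mul_le_mul_of_nonneg_right _ (by positivity)
              apply pow_le_pow_left₀ (by positivity) h2Mw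
      have hB : (t.factorial : ℝ) ≤ (4 * (p : ℝ)) ^ t * ((p : ℝ) ^ 2) ^ (2 * p * L) := by
        have hpos : (0 : ℝ) < ((p : ℝ) ^ 2) ^ t := by positivity
        apply le_of_mul_le_mul_left _ hpos
        calc ((p : ℝ) ^ 2) ^ t * t.factorial ≤ _ := hA
          _ = ((p : ℝ) ^ 2) ^ t * ((4 * (p : ℝ)) ^ t * ((p : ℝ) ^ 2) ^ (2 * p * L)) := by
              rw [← mul_assoc, ← mul_pow]; congr 2; ring
      have hC : ((L : ℝ) ^ 2) ^ t ≤ 4 ^ t * ((p : ℝ) ^ 2) ^ (2 * p * L) := by
        have hpos : (0 : ℝ) < (3 * p : ℝ) ^ t := by positivity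
        apply le_of_mul_le_mul_left _ hpos
        have htt : (t : ℝ) = 3 * p * (L : ℝ) ^ 2 := by rw [ht]; push_cast; ring
        calc (3 * p : ℝ) ^ t * ((L : ℝ) ^ 2) ^ t = (t : ℝ) ^ t := by rw [← mul_pow, ← htt]
          _ ≤ 3 ^ t * t.factorial := fact_lower t
          _ ≤ 3 ^ t * ((4 * (p : ℝ)) ^ t * ((p : ℝ) ^ 2) ^ (2 * p * L)) :=
              mul_le_mul_of_nonneg_left hB (by positivity)
          _ = (3 * p : ℝ) ^ t * (4 ^ t * ((p : ℝ) ^ 2) ^ (2 * p * L)) := by
              rw [mul_pow, mul_pow]; ring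
      have hD : (16 : ℝ) ^ t ≤ ((L : ℝ) ^ 2) ^ t := by
        apply pow_le_pow_left₀ (by norm_num)
        have : (4 : ℝ) ≤ L := by exact_mod_cast hL4
        nlinarith
      have hE : (4 : ℝ) ^ t ≤ ((p : ℝ) ^ 2) ^ (2 * p * L) := by
        have hpos : (0 : ℝ) < 4 ^ t := by positivity
        apply le_of_mul_le_mul_left _ hpos
        calc (4 : ℝ) ^ t * 4 ^ t = 16 ^ t := by rw [← mul_pow]; norm_num
          _ ≤ _ := hD.trans hC
      have hF : ((p : ℝ) ^ 2) ^ (2 * p * L) ≤ ((2 : ℝ) ^ (2 * L)) ^ (2 * p * L) := by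
        apply pow_le_pow_left₀ (by positivity)
        rw [mul_comm 2 L, pow_mul]
        apply pow_le_pow_left₀ (by positivity)
        exact_mod_cast hpL.le
      have hG := hE.trans hF
      rw [← pow_mul, show (4 : ℝ) = 2 ^ 2 by norm_num, ← pow_mul] at hG
      have hH := (pow_le_pow_iff_right₀ (by norm_num : (1 : ℝ) < 2)).1 hG
      rw [ht] at hH
      have hpl : 0 < p * L ^ 2 := by positivity
      nlinarith
    obtain ⟨W, hWc, hWI⟩ := avg t w hge (by rw [hcard]; exact hwN) (ind t univ) (by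
      intro I hI
      exact (mem_powersetCard.1 (mem_filter.1 hI).1).2) hsmall
    refine ⟨W, hWc, fun I hI hindep => ?_⟩
    by_contra hlt
    push Not at hlt
    obtain ⟨J, hJI, hJc⟩ := exists_subset_card_eq hlt
    apply hWI J _ (hJI.trans hI)
    refine mem_filter.2 ⟨mem_powersetCard.2 ⟨subset_univ _, hJc⟩, ?_⟩
    intro u hu v hv huv
    exact hindep u (hJI hu) v (hJI hv) huv

end Pool.Agent.Helper456.C4
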